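import Mathlib

/-!
# Degree four: arithmetic expressions and the robust quadratic system

Idea of helper33: replace Putnam's factor by a system of quadratic equations whose small
violations are impossible.
-/

namespace PoolH39.DF

open MvPolynomial

/-- arithmetic expressions in `n` variables with natural constants -/
inductive Ex (n : ℕ) : Type
  | var (i : Fin n) : Ex n
  | zero : Ex n
  | one : Ex n
  | add (a b : Ex n) : Ex n
  | mul (a b : Ex n) : Ex n

namespace Ex

variable {n : ℕ}

/-- the value of an expression -/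
def val {R : Type*} [CommSemiring R] (x : Fin n → R) : Ex n → R
  | var i => x i
  | zero => 0
  | one => 1
  | add a b => val x a + val x b
  | mul a b => val x a * val x b

/-- the list of subexpressions -/
def subs : Ex n → List (Ex n)
  | var i => [var i]
  | zero => [zero]
  | one => [one]
  | add a b => add a b :: (subs a ++ subs b)
  | mul a b => mul a b :: (subs a ++ subs b)

lemma val_cast (x : Fin n → ℕ) (t : Ex n) : ((val x t : ℕ) : ℤ) = val (fun i => (x i : ℤ)) t := by
  induction t with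
  | var i => rfl
  | zero => simp [val]
  | one => simp [val]
  | add a b ha hb => simp [val, ha, hb]
  | mul a b ha hb => simp [val, ha, hb]

/-- a natural constant -/
def const (n : ℕ) : ℕ → Ex n
  | 0 => zero
  | k + 1 => add (const n k) one

lemma val_const (x : Fin n → ℤ) (k : ℕ) : val x (const n k) = k := by
  induction k with
  | zero => simp [const, val]
  | succ k ih => simp [const, val, ih]

end Ex

/-- every integer polynomial is a difference of two expressions -/
lemma exists_ex {n : ℕ} (P : MvPolynomial (Fin n) ℤ) :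
    ∃ p q : Ex n, ∀ x : Fin n → ℤ, eval x P = p.val x - q.val x := by
  induction P using MvPolynomial.induction_on with
  | C c =>
    refine ⟨Ex.const n c.toNat, Ex.const n (-c).toNat, fun x => ?_⟩
    rw [eval_C, Ex.val_const, Ex.val_const]
    omega
  | add P Q hP hQ =>
    obtain ⟨p, q, h⟩ := hP
    obtain ⟨p', q', h'⟩ := hQ
    refine ⟨p.add p', q.add q', fun x => ?_⟩
    rw [map_add, h, h']
    simp only [Ex.val]; ring
  | mul_X P i hP =>
    obtain ⟨p, q, h⟩ := hP
    refine ⟨p.mul (Ex.var i), q.mul (Ex.var i), fun x => ?_⟩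
    rw [map_mul, eval_X, h]
    simp only [Ex.val]; ring

/-! ### the system over a commutative ring -/

section Ring

variable {n : ℕ} {R : Type*} [CommRing R]

/-- the node equation -/
def eqF (u u' : Ex n → R) (z : R) : Ex n → R
  | Ex.var _ => 0
  | Ex.zero => u' Ex.zero
  | Ex.one => u' Ex.one - z
  | Ex.add a b => u' (Ex.add a b) - u' a - u' b
  | Ex.mul a b => u' a * u b - u' (Ex.mul a b)

/-- the contribution of one node -/
def node (u u' : Ex n → R) (z Z : R) (t : Ex n) : R :=
  (u' t - z * u t) ^ 2 + (Z * u t - z * u' t) ^ 2 + eqF u u' z t ^ 2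

/-- the polynomial of degree four -/
def form (p q : Ex n) (u u' : Ex n → R) (Z Y : R) : R :=
  (u p - u q) - ((Z - (u p - u q + 3) ^ 2) ^ 2 + (Y - (u p - u q + 3) * Z) ^ 2
    + (Y * (u p - u q + 3) - Z ^ 2) ^ 2
    + ((p.subs ++ q.subs).map (node u u' (u p - u q + 3) Z)).sum)

lemma map_node {S : Type*} [CommRing S] (φ : R →+* S) (u u' : Ex n → R) (z Z : R) (t : Ex n) :
    φ (node u u' z Z t) = node (fun t => φ (u t)) (fun t => φ (u' t)) (φ z) (φ Z) t := by
  cases t <;> simp [node, eqF]

lemma map_form {S : Type*} [CommRing S] (φ : R →+* S) (p q : Ex n) (u u' : Ex n → R) (Z Y : R) :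
    φ (form p q u u' Z Y)
      = form p q (fun t => φ (u t)) (fun t => φ (u' t)) (φ Z) (φ Y) := by
  have h3 : φ (3 : R) = (3 : S) := map_ofNat φ 3
  have hs : ∀ l : List (Ex n), φ (l.map (node u u' (u p - u q + 3) Z)).sum
      = (l.map (node (fun t => φ (u t)) (fun t => φ (u' t)) (φ (u p) - φ (u q) + 3)
          (φ Z))).sum := by
    intro l
    induction l with
    | nil => simp
    | cons a l ih =>
      rw [List.map_cons, List.sum_cons, map_add, ih, map_node, List.map_cons, List.sum_cons]
      congr 2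
      simp [h3]
  unfold form
  simp only [map_sub, map_add, map_mul, map_pow, h3, hs]

end Ring

/-! ### completeness -/

variable {n : ℕ}

lemma node_exact (x : Fin n → ℤ) (z : ℤ) (t : Ex n) :
    node (fun t => t.val x) (fun t => z * t.val x) z (z ^ 2) t = 0 := by
  cases t <;> simp [node, eqF, Ex.val] <;> ring_nf

lemma form_exact (p q : Ex n) (x : Fin n → ℤ) (z : ℤ) (hz : z = p.val x - q.val x + 3) :
    form p q (fun t => t.val x) (fun t => z * t.val x) (z ^ 2) (z ^ 3)
      = p.val x - q.val x := by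
  have h : ((p.subs ++ q.subs).map
      (node (fun t => t.val x) (fun t => z * t.val x) z (z ^ 2))).sum = 0 := by
    refine List.sum_eq_zero (M := ℤ) fun y hy => ?_
    obtain ⟨t, -, rfl⟩ := List.mem_map.mp hy
    exact node_exact x z t
  unfold form
  rw [← hz, h]; ring

/-! ### soundness -/

lemma node_nonneg (u u' : Ex n → ℤ) (z Z : ℤ) (t : Ex n) : 0 ≤ node u u' z Z t := by
  unfold node; positivity

lemma sum_nodes_nonneg (u u' : Ex n → ℤ) (z Z : ℤ) (l : List (Ex n)) :
    0 ≤ (l.map (node u u' z Z)).sum := by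
  refine List.sum_nonneg fun y hy => ?_
  obtain ⟨t, -, rfl⟩ := List.mem_map.mp hy
  exact node_nonneg u u' z Z t

lemma node_le (u u' : Ex n → ℤ) (z Z : ℤ) {l : List (Ex n)} {t : Ex n} (ht : t ∈ l) :
    node u u' z Z t ≤ (l.map (node u u' z Z)).sum := by
  refine List.single_le_sum (fun y hy => ?_) _ (List.mem_map_of_mem ht)
  obtain ⟨s, -, rfl⟩ := List.mem_map.mp hy
  exact node_nonneg u u' z Z s

lemma abs_lt_of_sq_lt {a z : ℤ} (h : a ^ 2 < z) : |a| < z := by
  have h1 : |a| ≤ a ^ 2 := by
    rw [← sq_abs]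
    rcases eq_or_lt_of_le (abs_nonneg a) with h0 | h0
    · rw [← h0]; norm_num
    · nlinarith
  linarith

/-- a multiple of `z` smaller than `z` in absolute value vanishes -/
lemma zero_of_mul {z k : ℤ} (hz : 0 < z) (h : |z * k| < z) : k = 0 := by
  by_contra hk
  have h1 : 1 ≤ |k| := Int.one_le_abs hk
  rw [abs_mul, abs_of_pos hz] at h
  nlinarith

lemma nodes_sound (u u' : Ex n → ℤ) {z Z : ℤ} (hz : 0 < z) (hZ : Z = z ^ 2) (t : Ex n)
    (h : ∀ s ∈ t.subs, node u u' z Z s < z) :
    u t = t.val (fun i => u (Ex.var i)) ∧ u' t = z * u t ∧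
      ∀ s ∈ t.subs, node u u' z Z s = 0 := by
  have hD : ∀ s, node u u' z Z s < z → u' s = z * u s ∧ |eqF u u' z s| < z := by
    intro s hs
    unfold node at hs
    have h2 : (Z * u s - z * u' s) ^ 2 < z := by
      nlinarith [sq_nonneg (u' s - z * u s), sq_nonneg (eqF u u' z s)]
    have h3 : eqF u u' z s ^ 2 < z := by
      nlinarith [sq_nonneg (u' s - z * u s), sq_nonneg (Z * u s - z * u' s)]
    have h4 := abs_lt_of_sq_lt h2
    have h5 : Z * u s - z * u' s = z * (z * u s - u' s) := by rw [hZ]; ring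
    rw [h5] at h4
    have h6 := zero_of_mul hz h4
    exact ⟨by linarith, abs_lt_of_sq_lt h3⟩
  have hnode : ∀ s, u' s = z * u s → eqF u u' z s = 0 → node u u' z Z s = 0 := by
    intro s h1 h2
    unfold node
    rw [h2, h1, hZ]; ring
  induction t with
  | var i =>
    have h1 := (hD _ (h (Ex.var i) (by simp [Ex.subs]))).1
    refine ⟨rfl, h1, fun s hs => ?_⟩
    have hs' : s = Ex.var i := by simpa [Ex.subs] using hs
    subst hs'
    exact hnode _ h1 rfl
  | zero =>
    obtain ⟨h1, h2⟩ := hD _ (h Ex.zero (by simp [Ex.subs]))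
    simp only [eqF] at h2
    rw [h1] at h2
    have h3 := zero_of_mul hz h2
    refine ⟨by simpa [Ex.val] using h3, h1, fun s hs => ?_⟩
    have hs' : s = Ex.zero := by simpa [Ex.subs] using hs
    subst hs'
    refine hnode _ h1 ?_
    simp only [eqF]; rw [h1, h3]; ring
  | one =>
    obtain ⟨h1, h2⟩ := hD _ (h Ex.one (by simp [Ex.subs]))
    simp only [eqF] at h2
    rw [h1, show z * u Ex.one - z = z * (u Ex.one - 1) by ring] at h2
    have h3 := zero_of_mul hz h2
    refine ⟨by simp only [Ex.val]; linarith, h1, fun s hs => ?_⟩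
    have hs' : s = Ex.one := by simpa [Ex.subs] using hs
    subst hs'
    refine hnode _ h1 ?_
    simp only [eqF]; rw [h1, show z * u Ex.one - z = z * (u Ex.one - 1) by ring, h3]; ring
  | add a b iha ihb =>
    obtain ⟨h1, h2⟩ := hD _ (h (a.add b) (by simp [Ex.subs]))
    obtain ⟨ha, ha', ha0⟩ := iha fun s hs => h s (by simp [Ex.subs, hs])
    obtain ⟨hb, hb', hb0⟩ := ihb fun s hs => h s (by simp [Ex.subs, hs])
    have he : eqF u u' z (a.add b) = z * (u (a.add b) - u a - u b) := by
      simp only [eqF]; rw [h1, ha', hb']; ring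
    rw [he] at h2
    have h3 := zero_of_mul hz h2
    refine ⟨by simp only [Ex.val]; rw [← ha, ← hb]; linarith, h1, fun s hs => ?_⟩
    have hs' : s = a.add b ∨ s ∈ a.subs ∨ s ∈ b.subs := by simpa [Ex.subs] using hs
    rcases hs' with rfl | hs' | hs'
    · exact hnode _ h1 (by rw [he, h3]; ring)
    · exact ha0 s hs'
    · exact hb0 s hs'
  | mul a b iha ihb =>
    obtain ⟨h1, h2⟩ := hD _ (h (a.mul b) (by simp [Ex.subs]))
    obtain ⟨ha, ha', ha0⟩ := iha fun s hs => h s (by simp [Ex.subs, hs])
    obtain ⟨hb, hb', hb0⟩ := ihb fun s hs => h s (by simp [Ex.subs, hs])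
    have he : eqF u u' z (a.mul b) = z * (u a * u b - u (a.mul b)) := by
      simp only [eqF]; rw [h1, ha']; ring
    rw [he] at h2
    have h3 := zero_of_mul hz h2
    refine ⟨by simp only [Ex.val]; rw [← ha, ← hb]; linarith, h1, fun s hs => ?_⟩
    have hs' : s = a.mul b ∨ s ∈ a.subs ∨ s ∈ b.subs := by simpa [Ex.subs] using hs
    rcases hs' with rfl | hs' | hs'
    · exact hnode _ h1 (by rw [he, h3]; ring)
    · exact ha0 s hs'
    · exact hb0 s hs'

/-- **Soundness.** A positive value of the form is the value of `p - q`. -/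
lemma form_sound (p q : Ex n) (u u' : Ex n → ℤ) (Z Y : ℤ) (h : 0 < form p q u u' Z Y) :
    form p q u u' Z Y
      = p.val (fun i => u (Ex.var i)) - q.val (fun i => u (Ex.var i)) := by
  have hform : form p q u u' Z Y = (u p - u q) - ((Z - (u p - u q + 3) ^ 2) ^ 2
    + (Y - (u p - u q + 3) * Z) ^ 2 + (Y * (u p - u q + 3) - Z ^ 2) ^ 2
    + ((p.subs ++ q.subs).map (node u u' (u p - u q + 3) Z)).sum) := rfl
  set l := u p - u q with hl
  set z := l + 3 with hz
  set N := ((p.subs ++ q.subs).map (node u u' z Z)).sum with hN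
  have hN0 : 0 ≤ N := sum_nodes_nonneg u u' z Z _
  rw [hform] at h
  have hA2 := sq_nonneg (Z - z ^ 2)
  have hB2 := sq_nonneg (Y - z * Z)
  have hC2 := sq_nonneg (Y * z - Z ^ 2)
  have hlpos : 0 < l := by linarith
  have hA : |Z - z ^ 2| ≤ z - 4 := by
    have h1 := abs_lt_of_sq_lt (a := Z - z ^ 2) (z := z - 3) (by linarith)
    omega
  have hB : |Y - z * Z| ≤ z - 4 := by
    have h1 := abs_lt_of_sq_lt (a := Y - z * Z) (z := z - 3) (by linarith)
    omega
  have hC : |Y * z - Z ^ 2| ≤ z - 4 := by
    have h1 := abs_lt_of_sq_lt (a := Y * z - Z ^ 2) (z := z - 3) (by linarith)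
    omega
  have hz0 : 0 < z := by omega
  have hZ : Z = z ^ 2 := by
    by_contra hne
    have hA1 : 1 ≤ |Z - z ^ 2| := Int.one_le_abs (sub_ne_zero.mpr hne)
    have hid : Z * (Z - z ^ 2) = z * (Y - z * Z) - (Y * z - Z ^ 2) := by ring
    have h1 : |Z| * |Z - z ^ 2| ≤ z * (z - 4) + (z - 4) := by
      rw [← abs_mul, hid]
      calc |z * (Y - z * Z) - (Y * z - Z ^ 2)| ≤ |z * (Y - z * Z)| + |Y * z - Z ^ 2| :=
            abs_sub _ _
        _ ≤ z * (z - 4) + (z - 4) := by
            rw [abs_mul, abs_of_pos hz0]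
            have := mul_le_mul_of_nonneg_left hB hz0.le
            linarith
    have h2 : z ^ 2 - (z - 4) ≤ Z := by
      have := (abs_le.mp hA).1
      linarith
    have h3 : Z ≤ |Z| := le_abs_self Z
    have h4 : |Z| ≤ |Z| * |Z - z ^ 2| := by
      have := abs_nonneg Z
      nlinarith
    nlinarith
  have hY : Y = z ^ 3 := by
    have h1 : Y * z - Z ^ 2 = z * (Y - z * Z) := by rw [hZ]; ring
    rw [h1] at hC
    have h2 := zero_of_mul hz0 (lt_of_le_of_lt hC (by linarith))
    rw [hZ] at h2
    linarith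
  have hlt : ∀ s ∈ p.subs ++ q.subs, node u u' z Z s < z := by
    intro s hs
    have := node_le u u' z Z hs
    rw [← hN] at this
    linarith
  obtain ⟨hp, -, hp0⟩ := nodes_sound u u' hz0 hZ p fun s hs => hlt s (by simp [hs])
  obtain ⟨hq, -, hq0⟩ := nodes_sound u u' hz0 hZ q fun s hs => hlt s (by simp [hs])
  have hN00 : N = 0 := by
    refine List.sum_eq_zero fun y hy => ?_
    obtain ⟨t, ht, rfl⟩ := List.mem_map.mp hy
    rcases List.mem_append.mp ht with ht | ht
    · exact hp0 t ht
    · exact hq0 t ht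
  rw [hform, hN00, hY, hZ, hl, ← hp, ← hq]
  ring

end PoolH39.DF
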