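import Mathlib
import Pool.Agent.Helper39.DF.Ex

/-!
# Degree four suffices for every positive range
-/

namespace PoolH39.DF

open MvPolynomial

section Degree

variable {σ : Type*}

lemma td_sub {f g : MvPolynomial σ ℤ} {d : ℕ} (hf : f.totalDegree ≤ d)
    (hg : g.totalDegree ≤ d) : (f - g).totalDegree ≤ d :=
  (totalDegree_sub f g).trans (max_le hf hg)

lemma td_add {f g : MvPolynomial σ ℤ} {d : ℕ} (hf : f.totalDegree ≤ d)
    (hg : g.totalDegree ≤ d) : (f + g).totalDegree ≤ d :=
  (totalDegree_add f g).trans (max_le hf hg)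

lemma td_mul {f g : MvPolynomial σ ℤ} {a b d : ℕ} (hf : f.totalDegree ≤ a)
    (hg : g.totalDegree ≤ b) (hd : a + b ≤ d) : (f * g).totalDegree ≤ d :=
  ((totalDegree_mul f g).trans (add_le_add hf hg)).trans hd

lemma td_sq {f : MvPolynomial σ ℤ} {a d : ℕ} (hf : f.totalDegree ≤ a)
    (hd : a + a ≤ d) : (f ^ 2).totalDegree ≤ d := by
  rw [sq]; exact td_mul hf hf hd

lemma td_X (i : σ) : (X i : MvPolynomial σ ℤ).totalDegree ≤ 1 := (totalDegree_X i).le

lemma td_three {d : ℕ} : (3 : MvPolynomial σ ℤ).totalDegree ≤ d := by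
  have h : (3 : MvPolynomial σ ℤ) = C 3 := (map_ofNat C 3).symm
  rw [h, totalDegree_C]; exact Nat.zero_le _

lemma td_sum {l : List (MvPolynomial σ ℤ)} {d : ℕ} (h : ∀ f ∈ l, f.totalDegree ≤ d) :
    l.sum.totalDegree ≤ d := by
  induction l with
  | nil => simp
  | cons a l ih =>
    rw [List.sum_cons]
    exact td_add (h a (by simp)) (ih fun f hf => h f (by simp [hf]))

lemma td_of_rename {τ : Type*} {f : τ → σ} (hf : Function.Injective f)
    (R : MvPolynomial τ ℤ) {d : ℕ} (h : (rename f R).totalDegree ≤ d) : R.totalDegree ≤ d := by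
  classical
  refine le_trans (Finset.sup_le fun s hs => ?_) h
  have h1 : Finsupp.mapDomain f s ∈ (rename f R).support := by
    rw [support_rename_of_injective hf]
    exact Finset.mem_image_of_mem _ hs
  have h2 := le_totalDegree h1
  rwa [Finsupp.sum_mapDomain_index (fun _ => rfl) (fun _ _ _ => rfl)] at h2

variable {n : ℕ}

lemma td_eqF (u u' : Ex n → MvPolynomial σ ℤ) (z : MvPolynomial σ ℤ)
    (hu : ∀ t, (u t).totalDegree ≤ 1) (hu' : ∀ t, (u' t).totalDegree ≤ 1)
    (hz : z.totalDegree ≤ 1) (t : Ex n) : (eqF u u' z t).totalDegree ≤ 2 := by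
  have h1 : ∀ t, (u' t).totalDegree ≤ 2 := fun t => (hu' t).trans (by norm_num)
  cases t with
  | var i => simp [eqF]
  | zero => exact h1 _
  | one => exact td_sub (h1 _) (hz.trans (by norm_num))
  | add a b => exact td_sub (td_sub (h1 _) (h1 _)) (h1 _)
  | mul a b => exact td_sub (td_mul (hu' a) (hu b) le_rfl) (h1 _)

lemma td_node (u u' : Ex n → MvPolynomial σ ℤ) (z Z : MvPolynomial σ ℤ)
    (hu : ∀ t, (u t).totalDegree ≤ 1) (hu' : ∀ t, (u' t).totalDegree ≤ 1)
    (hz : z.totalDegree ≤ 1) (hZ : Z.totalDegree ≤ 1) (t : Ex n) :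
    (node u u' z Z t).totalDegree ≤ 4 := by
  unfold node
  have h1 : ∀ t, (u' t).totalDegree ≤ 2 := fun t => (hu' t).trans (by norm_num)
  refine td_add (td_add (td_sq (a := 2) ?_ le_rfl) (td_sq (a := 2) ?_ le_rfl))
    (td_sq (a := 2) ?_ le_rfl)
  · exact td_sub (h1 t) (td_mul hz (hu t) le_rfl)
  · exact td_sub (td_mul hZ (hu t) le_rfl) (td_mul hz (hu' t) le_rfl)
  · exact td_eqF u u' z hu hu' hz t

lemma td_form (p q : Ex n) (u u' : Ex n → MvPolynomial σ ℤ) (Z Y : MvPolynomial σ ℤ)
    (hu : ∀ t, (u t).totalDegree ≤ 1) (hu' : ∀ t, (u' t).totalDegree ≤ 1)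
    (hZ : Z.totalDegree ≤ 1) (hY : Y.totalDegree ≤ 1) :
    (form p q u u' Z Y).totalDegree ≤ 4 := by
  have hl : (u p - u q).totalDegree ≤ 1 := td_sub (hu p) (hu q)
  have hz : (u p - u q + 3).totalDegree ≤ 1 := td_add hl td_three
  unfold form
  refine td_sub (hl.trans (by norm_num)) (td_add (td_add (td_add ?_ ?_) ?_) ?_)
  · exact td_sq (td_sub (hZ.trans (by norm_num)) (td_sq hz le_rfl)) le_rfl
  · exact td_sq (td_sub (hY.trans (by norm_num)) (td_mul hz hZ le_rfl)) le_rfl
  · exact td_sq (td_sub (td_mul hY hz le_rfl) (td_sq hZ le_rfl)) le_rfl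
  · refine td_sum fun f hf => ?_
    obtain ⟨t, -, rfl⟩ := List.mem_map.mp hf
    exact td_node u u' _ Z hu hu' hz hZ t

end Degree

/-- the variables of the polynomial of degree four -/
abbrev Idx (n : ℕ) : Type := (Ex n × Bool) ⊕ Bool

variable {n : ℕ}

/-- the polynomial of degree four -/
noncomputable def polyR (p q : Ex n) : MvPolynomial (Idx n) ℤ :=
  form p q (fun t => X (Sum.inl (t, false))) (fun t => X (Sum.inl (t, true)))
    (X (Sum.inr false)) (X (Sum.inr true))

lemma polyR_degree (p q : Ex n) : (polyR p q).totalDegree ≤ 4 :=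
  td_form p q _ _ _ _ (fun _ => td_X _) (fun _ => td_X _) (td_X _) (td_X _)

lemma eval_polyR (p q : Ex n) (a : Idx n → ℤ) :
    eval a (polyR p q) = form p q (fun t => a (Sum.inl (t, false)))
      (fun t => a (Sum.inl (t, true))) (a (Sum.inr false)) (a (Sum.inr true)) := by
  have h := map_form (eval a) p q (fun t => (X (Sum.inl (t, false)) : MvPolynomial (Idx n) ℤ))
    (fun t => X (Sum.inl (t, true))) (X (Sum.inr false)) (X (Sum.inr true))
  simp only [eval_X] at h
  exact h

/-- The set of positive values of `P` at natural arguments. -/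
def posRange {σ : Type*} (P : MvPolynomial σ ℤ) : Set ℤ :=
  {z | 0 < z ∧ ∃ a : σ → ℕ, eval (fun i => (a i : ℤ)) P = z}

lemma posRange_polyR (P : MvPolynomial (Fin n) ℤ) (p q : Ex n)
    (h : ∀ x : Fin n → ℤ, eval x P = p.val x - q.val x) :
    posRange (polyR p q) = posRange P := by
  ext k
  constructor
  · rintro ⟨hk, a, ha⟩
    refine ⟨hk, fun i => a (Sum.inl (Ex.var i, false)), ?_⟩
    rw [eval_polyR] at ha
    rw [h, ← ha]
    rw [← ha] at hk
    exact (form_sound p q _ _ _ _ hk).symm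
  · rintro ⟨hk, x, hx⟩
    rw [h] at hx
    have hz : (0 : ℤ) ≤ p.val (fun i => (x i : ℤ)) - q.val (fun i => (x i : ℤ)) + 3 := by
      linarith
    obtain ⟨z, hzz⟩ := Int.eq_ofNat_of_zero_le hz
    refine ⟨hk, fun
      | Sum.inl (t, false) => t.val x
      | Sum.inl (t, true) => z * t.val x
      | Sum.inr false => z ^ 2
      | Sum.inr true => z ^ 3, ?_⟩
    rw [eval_polyR]
    have h2 := form_exact p q (fun i => (x i : ℤ)) (z : ℤ) hzz.symm
    rw [hx] at h2
    rw [← h2]
    push_cast [Ex.val_cast]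
    rfl

/-- **Theorem.** The set of positive values of an integer polynomial, at natural arguments, is
the set of positive values of an integer polynomial of total degree at most four. -/
theorem degree_four (P : MvPolynomial (Fin n) ℤ) :
    ∃ (m : ℕ) (R : MvPolynomial (Fin m) ℤ), R.totalDegree ≤ 4 ∧ posRange R = posRange P := by
  obtain ⟨p, q, h⟩ := exists_ex P
  obtain ⟨m, f, hf, R, hR⟩ := exists_fin_rename (polyR p q)
  refine ⟨m, R, ?_, ?_⟩
  · have h1 := polyR_degree p q
    rw [hR] at h1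
    exact td_of_rename hf R h1
  · rw [← posRange_polyR P p q h]
    ext k
    constructor
    · rintro ⟨hk, a, ha⟩
      refine ⟨hk, Function.extend f a 0, ?_⟩
      rw [hR, eval_rename]
      have : (fun i => ((Function.extend f a 0 i : ℕ) : ℤ)) ∘ f = fun i => (a i : ℤ) := by
        funext i
        simp [Function.comp_apply, hf.extend_apply]
      rw [this, ha]
    · rintro ⟨hk, a, ha⟩
      refine ⟨hk, a ∘ f, ?_⟩
      rw [hR, eval_rename] at ha
      exact ha

end PoolH39.DF
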